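import Mathlib
import Pool.Agent.E8helper61.LK.Defs

/-!
# Project LK: random families of graphs of functions
-/

set_option autoImplicit false

namespace H61LK

open Finset

namespace Rand

/-- counting functions with restricted values on `C` -/
lemma cnt {Z : Type} [Fintype Z] [DecidableEq Z] (y k : ℕ) (C : Finset Z) (A : Z → Finset (Fin y))
    (hA : ∀ z ∈ C, (A z).card ≤ k) :
    (univ.filter (fun w : Z → Fin y => ∀ z ∈ C, w z ∈ A z)).card * y ^ C.card ≤
      y ^ Fintype.card Z * k ^ C.card := by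
  have h1 : (univ.filter (fun w : Z → Fin y => ∀ z ∈ C, w z ∈ A z)) =
      Fintype.piFinset (fun z => if z ∈ C then A z else univ) := by
    ext w
    rw [mem_filter, Fintype.mem_piFinset]
    constructor
    · rintro ⟨-, h⟩ z
      split_ifs with hz
      · exact h z hz
      · exact mem_univ _
    · intro h
      refine ⟨mem_univ _, fun z hz => ?_⟩
      have := h z
      rwa [if_pos hz] at this
  rw [h1, Fintype.card_piFinset]
  have h2 : ∏ z, (if z ∈ C then A z else (univ : Finset (Fin y))).card ≤ ∏ z : Z, (if z ∈ C then k else y) := by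
    refine prod_le_prod' fun z _ => ?_
    split_ifs with hz
    · exact hA z hz
    · rw [card_univ, Fintype.card_fin]
  have h3 : y ^ C.card = ∏ z : Z, (if z ∈ C then y else 1) := by
    rw [prod_ite_mem, univ_inter, prod_const]
  have h4 : k ^ C.card = ∏ z : Z, (if z ∈ C then k else 1) := by
    rw [prod_ite_mem, univ_inter, prod_const]
  have h5 : y ^ Fintype.card Z = ∏ _z : Z, y := by rw [prod_const, card_univ]
  calc (∏ z, (if z ∈ C then A z else (univ : Finset (Fin y))).card) * y ^ C.card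
      ≤ (∏ z : Z, (if z ∈ C then k else y)) * y ^ C.card := Nat.mul_le_mul_right _ h2
    _ = y ^ Fintype.card Z * k ^ C.card := by
        rw [h3, h4, h5, ← prod_mul_distrib, ← prod_mul_distrib]
        refine prod_congr rfl fun z _ => ?_
        split_ifs <;> ring

variable {P X : Type} [Fintype P] [DecidableEq P] [Fintype X] [DecidableEq X]

/-- the pair `p, p'` differs on `J` -/
lemma cntA (y : ℕ) [NeZero y] (p p' : P) (hp : p ≠ p') (J : Finset X) :
    (univ.filter (fun w : P × X → Fin y => ∀ x ∈ J, w (p, x) ≠ w (p', x))).card * y ^ J.card ≤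
      y ^ Fintype.card (P × X) * (y - 1) ^ J.card := by
  classical
  let C : Finset (P × X) := {p} ×ˢ J
  have hC : C.card = J.card := by rw [card_product, card_singleton, one_mul]
  have h1 := cnt y (y - 1) C (fun _ => univ.erase (0 : Fin y)) (fun z _ => by
    rw [card_erase_of_mem (mem_univ _), card_univ, Fintype.card_fin])
  rw [hC] at h1
  refine le_trans (Nat.mul_le_mul_right _ ?_) h1
  refine card_le_card_of_injOn (fun w z => if z.1 = p then w z - w (p', z.2) else w z) ?_ ?_
  · intro w hw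
    rw [mem_coe, mem_filter] at hw ⊢
    refine ⟨mem_univ _, ?_⟩
    rintro ⟨a, x⟩ hz
    obtain ⟨h2, h3⟩ := mem_product.1 hz
    have h2' : a = p := mem_singleton.1 h2
    subst h2'
    rw [mem_erase]
    refine ⟨?_, mem_univ _⟩
    show (if a = a then w (a, x) - w (p', x) else w (a, x)) ≠ 0
    rw [if_pos rfl, sub_ne_zero]
    exact hw.2 x h3
  · intro w _ w' _ h
    have h' : ∀ z : P × X, (if z.1 = p then w z - w (p', z.2) else w z) =
        (if z.1 = p then w' z - w' (p', z.2) else w' z) := fun z => congrFun h z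
    have h2 : ∀ z : P × X, z.1 ≠ p → w z = w' z := by
      intro z hz
      have := h' z
      rwa [if_neg hz, if_neg hz] at this
    funext z
    by_cases hz : z.1 = p
    · have h3 := h' z
      rw [if_pos hz, if_pos hz, h2 (p', z.2) hp.symm] at h3
      exact sub_left_injective h3
    · exact h2 z hz

/-- all `p ∈ Q` have the values of `σ` -/
lemma cntB (y t : ℕ) (Q : Finset P) (σ : Fin t → X × Fin y) (hσ : Function.Injective fun m => (σ m).1) :
    (univ.filter (fun w : P × X → Fin y => ∀ p ∈ Q, ∀ m, w (p, (σ m).1) = (σ m).2)).card * y ^ (Q.card * t) ≤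
      y ^ Fintype.card (P × X) := by
  classical
  let I : Finset X := univ.image fun m => (σ m).1
  have hI : I.card = t := by
    rw [card_image_of_injective _ hσ, card_univ, Fintype.card_fin]
  let C : Finset (P × X) := Q ×ˢ I
  have hC : C.card = Q.card * t := by rw [card_product, hI]
  have h1 := cnt y 1 C (fun z => univ.filter fun a => ∀ m, (σ m).1 = z.2 → a = (σ m).2) (fun z hz => by
    obtain ⟨m, -, hm⟩ := mem_image.1 (mem_product.1 hz).2
    rw [card_le_one]
    intro a ha b hb
    rw [(mem_filter.1 ha).2 m hm, (mem_filter.1 hb).2 m hm])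
  rw [hC, one_pow, mul_one] at h1
  refine le_trans (Nat.mul_le_mul_right _ (card_le_card ?_)) h1
  intro w hw
  rw [mem_filter] at hw ⊢
  refine ⟨mem_univ _, ?_⟩
  rintro ⟨p, x⟩ hz
  rw [mem_filter]
  refine ⟨mem_univ _, fun m hm => ?_⟩
  have h2 := hw.2 p (mem_product.1 hz).1 m
  have hm' : (σ m).1 = x := hm
  rw [hm'] at h2
  exact h2

lemma bern (y : ℕ) (hy : 2 ≤ y) : 2 * (y - 1) ^ y ≤ y ^ y := by
  obtain ⟨m, rfl⟩ : ∃ m, y = m + 1 := ⟨y - 1, by omega⟩
  have hm : 1 ≤ m := by omega
  rw [Nat.add_sub_cancel]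
  have hm0 : (0 : ℝ) < m := by exact_mod_cast hm
  have h1 : (1 : ℝ) + ((m + 1 : ℕ) : ℝ) * (1 / m) ≤ (1 + 1 / m) ^ (m + 1) :=
    one_add_mul_le_pow (by have : (0 : ℝ) ≤ 1 / m := by positivity
                           linarith) (m + 1)
  have h2 : (2 : ℝ) ≤ (1 + 1 / (m : ℝ)) ^ (m + 1) := by
    refine le_trans ?_ h1
    push_cast
    have : ((m : ℝ) + 1) * (1 / m) = 1 + 1 / m := by field_simp
    rw [this]
    have : (0 : ℝ) ≤ 1 / m := by positivity
    linarith
  have h3 : (2 : ℝ) * (m : ℝ) ^ (m + 1) ≤ ((m : ℝ) + 1) ^ (m + 1) := by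
    have e : (m : ℝ) + 1 = m * (1 + 1 / m) := by field_simp
    rw [e, mul_pow, mul_comm]
    exact mul_le_mul_of_nonneg_left h2 (by positivity)
  exact_mod_cast h3

lemma bern' (y L : ℕ) (hy : 2 ≤ y) : 2 ^ L * (y - 1) ^ (y * L) ≤ y ^ (y * L) := by
  have := Nat.pow_le_pow_left (bern y hy) L
  rwa [mul_pow, ← pow_mul, ← pow_mul] at this

lemma sq_le (t : ℕ) (ht : 1 ≤ t) : 5 * t ^ 2 ≤ 2 * 4 ^ t := by
  induction t, ht using Nat.le_induction with
  | base => norm_num
  | succ t ht ih =>
    rw [pow_succ 4]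
    nlinarith

lemma num (t s : ℕ) (ht : 1 ≤ t) (hs : 1 ≤ s) :
    (t * (2 ^ s * (2 * t * s + t + 2)) * 2 ^ s) ^ t ≤ 2 ^ (5 * t ^ 2 * s) := by
  have h1 : 2 * t * s + t + 2 ≤ 5 * t * s := by nlinarith [Nat.mul_le_mul ht hs, Nat.mul_le_mul ht (le_refl s), Nat.mul_le_mul (le_refl t) hs]
  have h2 : 2 * s ≤ 2 ^ s := by
    have : ∀ n : ℕ, 1 ≤ n → 2 * n ≤ 2 ^ n := by
      intro n hn
      induction n, hn using Nat.le_induction with
      | base => norm_num
      | succ n hn ih => rw [pow_succ]; nlinarith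
    exact this s hs
  have h3 := sq_le t ht
  have h4 : t * (5 * t * s) ≤ 2 ^ (2 * t + s) := by
    have e : 2 ^ (2 * t + s) = 4 ^ t * 2 ^ s := by
      rw [pow_add, pow_mul]; norm_num
    rw [e]
    have h5 := Nat.mul_le_mul h3 h2
    have h6 : 5 * t ^ 2 * (2 * s) = 2 * (t * (5 * t * s)) := by ring
    have h7 : 2 * 4 ^ t * 2 ^ s = 2 * (4 ^ t * 2 ^ s) := by ring
    rw [h6, h7] at h5
    omega
  have h5 : t * (2 ^ s * (2 * t * s + t + 2)) * 2 ^ s ≤ 2 ^ (2 * t + 3 * s) := by
    calc t * (2 ^ s * (2 * t * s + t + 2)) * 2 ^ s = (t * (2 * t * s + t + 2)) * 2 ^ (2 * s) := by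
          rw [two_mul s, pow_add]; ring
      _ ≤ (t * (5 * t * s)) * 2 ^ (2 * s) := Nat.mul_le_mul_right _ (Nat.mul_le_mul_left _ h1)
      _ ≤ 2 ^ (2 * t + s) * 2 ^ (2 * s) := Nat.mul_le_mul_right _ h4
      _ = 2 ^ (2 * t + 3 * s) := by rw [← pow_add]; congr 1; ring
  refine (Nat.pow_le_pow_left h5 t).trans ?_
  rw [← pow_mul]
  apply Nat.pow_le_pow_right (by norm_num)
  have h6 : (2 * t + 3 * s) * t = 2 * (t * t) + 3 * (s * t) := by ring
  have h7 : 5 * t ^ 2 * s = 2 * (t * t) * s + 3 * (s * t) * t := by ring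
  rw [h6, h7]
  exact Nat.add_le_add (Nat.le_mul_of_pos_right _ hs) (Nat.le_mul_of_pos_right _ ht)

end Rand

open H61LK.Rand in
theorem t_RAND : S_RAND := by
  classical
  intro t s ht hs
  set y : ℕ := 2 ^ s with hy
  set L : ℕ := 2 * t * s + t + 2 with hL
  set r : ℕ := y * L with hr
  set N : ℕ := 2 ^ (s * t - 1) with hN
  set D : ℕ := 11 * t ^ 2 * s with hD
  have hy2 : 2 ≤ y := by
    calc 2 = 2 ^ 1 := rfl
      _ ≤ 2 ^ s := Nat.pow_le_pow_right (by norm_num) hs
  have hy0 : 0 < y := by omega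
  have : NeZero y := ⟨by omega⟩
  have hN0 : 0 < N := by positivity
  have hst : 1 ≤ s * t := Nat.mul_pos hs ht
  have hyt : y ^ t = 2 * N := by
    rw [hy, hN, ← pow_mul, ← pow_succ']
    congr 1
    omega
  let X : Type := Fin t × Fin r
  have hr0 : 0 < r := Nat.mul_pos hy0 (by omega)
  -- a good function
  have key : ∃ w : Fin N × X → Fin y,
      (∀ p p' : Fin N, p ≠ p' → ∀ i : Fin t, ∃ j : Fin r, w (p, (i, j)) = w (p', (i, j))) ∧
      (∀ Q : Finset (Fin N), Q.card = D + 1 → ∀ σ : Fin t → X × Fin y, (Function.Injective fun m => (σ m).1) →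
        ∃ p ∈ Q, ∃ m, w (p, (σ m).1) ≠ (σ m).2) := by
    by_contra hcon
    push Not at hcon
    let IA : Finset (Fin N × Fin N × Fin t) := univ.filter fun q => q.1 ≠ q.2.1
    let SA : Fin N × Fin N × Fin t → Finset (Fin N × X → Fin y) := fun q =>
      univ.filter (fun w => ∀ x ∈ (univ.image fun j : Fin r => ((q.2.2, j) : X)), w (q.1, x) ≠ w (q.2.1, x))
    let IB : Finset ((Fin t → X × Fin y) × Finset (Fin N)) :=
      (univ.filter fun σ : Fin t → X × Fin y => Function.Injective fun m => (σ m).1) ×ˢ (univ.powersetCard (D + 1))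
    let SB : (Fin t → X × Fin y) × Finset (Fin N) → Finset (Fin N × X → Fin y) := fun q =>
      univ.filter (fun w => ∀ p ∈ q.2, ∀ m, w (p, (q.1 m).1) = (q.1 m).2)
    have hcov : (univ : Finset (Fin N × X → Fin y)) ⊆ IA.biUnion SA ∪ IB.biUnion SB := by
      intro w _
      rw [mem_union]
      by_cases h1 : ∀ p p' : Fin N, p ≠ p' → ∀ i : Fin t, ∃ j : Fin r, w (p, (i, j)) = w (p', (i, j))
      · right
        obtain ⟨Q, hQ, σ, hσ, h2⟩ := hcon w h1
        rw [mem_biUnion]
        refine ⟨(σ, Q), ?_, ?_⟩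
        · rw [mem_product]
          exact ⟨mem_filter.2 ⟨mem_univ _, hσ⟩, mem_powersetCard.2 ⟨subset_univ _, hQ⟩⟩
        · exact mem_filter.2 ⟨mem_univ _, h2⟩
      · left
        push Not at h1
        obtain ⟨p, p', hp, i, hi⟩ := h1
        rw [mem_biUnion]
        refine ⟨(p, p', i), mem_filter.2 ⟨mem_univ _, hp⟩, mem_filter.2 ⟨mem_univ _, ?_⟩⟩
        intro x hx
        obtain ⟨j, -, rfl⟩ := mem_image.1 hx
        exact hi j
    set W : ℕ := y ^ Fintype.card (Fin N × X) with hW
    have hW0 : 0 < W := by positivity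
    have hcard : W ≤ ∑ q ∈ IA, (SA q).card + ∑ q ∈ IB, (SB q).card := by
      have h1 : (univ : Finset (Fin N × X → Fin y)).card = W := by
        rw [card_univ, Fintype.card_fun, Fintype.card_fin]
      rw [← h1]
      exact (card_le_card hcov).trans ((card_union_le _ _).trans (Nat.add_le_add card_biUnion_le card_biUnion_le))
    -- the first sum
    have hA : ∀ q ∈ IA, (SA q).card * 2 ^ L ≤ W := by
      intro q hq
      have h1 := cntA y q.1 q.2.1 (mem_filter.1 hq).2 (univ.image fun j : Fin r => ((q.2.2, j) : X))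
      have h2 : (univ.image fun j : Fin r => ((q.2.2, j) : X)).card = r := by
        rw [card_image_of_injective _ (fun a b h => (Prod.mk.inj h).2), card_univ, Fintype.card_fin]
      rw [h2, ← hW] at h1
      have h3 := bern' y L hy2
      rw [← hr] at h3
      have h4 : (SA q).card * 2 ^ L * y ^ r ≤ W * y ^ r := by
        calc (SA q).card * 2 ^ L * y ^ r = ((SA q).card * y ^ r) * 2 ^ L := by ring
          _ ≤ (W * (y - 1) ^ r) * 2 ^ L := Nat.mul_le_mul_right _ h1
          _ = W * (2 ^ L * (y - 1) ^ r) := by ring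
          _ ≤ W * y ^ r := Nat.mul_le_mul_left _ h3
      exact Nat.le_of_mul_le_mul_right h4 (by positivity)
    have hB : ∀ q ∈ IB, (SB q).card * (2 * N) ^ (D + 1) ≤ W := by
      intro q hq
      obtain ⟨h1, h2⟩ := mem_product.1 hq
      have h3 := cntB y t q.2 q.1 (mem_filter.1 h1).2
      rw [(mem_powersetCard.1 h2).2, mul_comm (D + 1) t, pow_mul, hyt] at h3
      convert h3
    have hIA : IA.card ≤ N * (N * t) := by
      refine (card_filter_le _ _).trans ?_
      rw [card_univ, Fintype.card_prod, Fintype.card_prod, Fintype.card_fin, Fintype.card_fin]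
    have hIB : IB.card ≤ (t * r * y) ^ t * N ^ (D + 1) := by
      rw [card_product, card_powersetCard, card_univ, Fintype.card_fin]
      refine Nat.mul_le_mul ((card_filter_le _ _).trans ?_) (Nat.choose_le_pow _ _)
      rw [card_univ, Fintype.card_fun, Fintype.card_prod, Fintype.card_prod, Fintype.card_fin, Fintype.card_fin,
        Fintype.card_fin]
    have hsA : (∑ q ∈ IA, (SA q).card) * 16 ≤ W := by
      have h1 : (∑ q ∈ IA, (SA q).card) * 2 ^ L ≤ (N * (N * t)) * W := by
        rw [sum_mul]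
        refine (sum_le_sum hA).trans ?_
        rw [sum_const, smul_eq_mul]
        exact Nat.mul_le_mul_right _ hIA
      have h2 : 2 ^ L = 16 * (N * (N * 2 ^ t)) := by
        have h3 : 2 ^ L = (y ^ t) ^ 2 * 2 ^ t * 4 := by
          rw [hL, hy, ← pow_mul, ← pow_mul, pow_add, pow_add]
          have : s * (t * 2) = 2 * t * s := by ring
          rw [this]
          norm_num
        rw [h3, hyt]
        ring
      have h3 : t ≤ 2 ^ t := Nat.lt_two_pow_self.le
      have h4 : (∑ q ∈ IA, (SA q).card) * 16 * (N * (N * 2 ^ t)) ≤ W * (N * (N * 2 ^ t)) := by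
        calc (∑ q ∈ IA, (SA q).card) * 16 * (N * (N * 2 ^ t)) = (∑ q ∈ IA, (SA q).card) * 2 ^ L := by
              rw [h2]; ring
          _ ≤ (N * (N * t)) * W := h1
          _ ≤ (N * (N * 2 ^ t)) * W := Nat.mul_le_mul_right _ (Nat.mul_le_mul_left _ (Nat.mul_le_mul_left _ h3))
          _ = W * (N * (N * 2 ^ t)) := mul_comm _ _
      exact Nat.le_of_mul_le_mul_right h4 (by positivity)
    have hsB : (∑ q ∈ IB, (SB q).card) * 2 ≤ W := by
      have h1 : (∑ q ∈ IB, (SB q).card) * (2 * N) ^ (D + 1) ≤ ((t * r * y) ^ t * N ^ (D + 1)) * W := by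
        rw [sum_mul]
        refine (sum_le_sum hB).trans ?_
        rw [sum_const, smul_eq_mul]
        exact Nat.mul_le_mul_right _ hIB
      have h2 : (t * r * y) ^ t ≤ 2 ^ D := by
        refine (num t s ht hs).trans (Nat.pow_le_pow_right (by norm_num) ?_)
        rw [hD]
        have : 5 * t ^ 2 * s + 6 * t ^ 2 * s = 11 * t ^ 2 * s := by ring
        omega
      have h4 : (∑ q ∈ IB, (SB q).card) * 2 * (2 ^ D * N ^ (D + 1)) ≤ W * (2 ^ D * N ^ (D + 1)) := by
        calc (∑ q ∈ IB, (SB q).card) * 2 * (2 ^ D * N ^ (D + 1)) = (∑ q ∈ IB, (SB q).card) * (2 * N) ^ (D + 1) := by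
              rw [mul_pow, pow_succ 2]; ring
          _ ≤ ((t * r * y) ^ t * N ^ (D + 1)) * W := h1
          _ ≤ (2 ^ D * N ^ (D + 1)) * W := Nat.mul_le_mul_right _ (Nat.mul_le_mul_right _ h2)
          _ = W * (2 ^ D * N ^ (D + 1)) := mul_comm _ _
      exact Nat.le_of_mul_le_mul_right h4 (by positivity)
    omega
  obtain ⟨w, hw1, hw2⟩ := key
  let g : Fin N → X → Fin t × Fin r × Fin y := fun p x => (x.1, x.2, w (p, x))
  have hg : ∀ p, Function.Injective (g p) := by
    intro p x x' h
    have h1 : x.1 = x'.1 := congrArg (fun z : Fin t × Fin r × Fin y => z.1) h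
    have h2 : x.2 = x'.2 := congrArg (fun z : Fin t × Fin r × Fin y => z.2.1) h
    exact Prod.ext h1 h2
  have hmem : ∀ (p : Fin N) (k : Fin t × Fin r × Fin y), k ∈ univ.image (g p) ↔ w (p, (k.1, k.2.1)) = k.2.2 := by
    intro p k
    rw [mem_image]
    constructor
    · rintro ⟨x, -, rfl⟩
      rfl
    · intro h
      exact ⟨(k.1, k.2.1), mem_univ _, by
        show (k.1, k.2.1, w (p, (k.1, k.2.1))) = k
        rw [h]⟩
  have hcardf : ∀ p, (univ.image (g p)).card = t * r := by
    intro p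
    rw [card_image_of_injective _ (hg p), card_univ, Fintype.card_prod, Fintype.card_fin, Fintype.card_fin]
  refine ⟨Fin N, Fin t × Fin r × Fin y, inferInstance, inferInstance, ⟨⟨0, hN0⟩⟩, inferInstance, inferInstance,
    fun p => univ.image (g p), Fintype.card_fin N, hcardf, ?_, ?_⟩
  · intro p p'
    by_cases hp : p = p'
    · subst hp
      rw [inter_self, hcardf]
      exact Nat.le_mul_of_pos_right _ hr0
    · choose j hj using hw1 p p' hp
      have h1 : (univ.image fun i : Fin t => (i, j i, w (p, (i, j i)))).card = t := by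
        rw [card_image_of_injective _ (fun a b h => (Prod.mk.inj h).1), card_univ, Fintype.card_fin]
      calc t = (univ.image fun i : Fin t => (i, j i, w (p, (i, j i)))).card := h1.symm
        _ ≤ _ := by
          apply card_le_card
          intro k hk
          obtain ⟨i, -, rfl⟩ := mem_image.1 hk
          rw [mem_inter, hmem, hmem]
          exact ⟨rfl, (hj i).symm⟩
  · intro S hS
    by_contra hlt
    push Not at hlt
    obtain ⟨Q, hQ1, hQ2⟩ := exists_subset_card_eq (Nat.succ_le_of_lt hlt)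
    let e := S.equivFinOfCardEq hS
    let σ : Fin t → X × Fin y := fun m => (((e.symm m : Fin t × Fin r × Fin y).1, (e.symm m : Fin t × Fin r × Fin y).2.1),
      (e.symm m : Fin t × Fin r × Fin y).2.2)
    have hall : ∀ p ∈ Q, ∀ m, w (p, (σ m).1) = (σ m).2 := by
      intro p hp m
      have h1 := (mem_filter.1 (hQ1 hp)).2 (e.symm m).2
      exact (hmem p _).1 h1
    have hσ : Function.Injective fun m => (σ m).1 := by
      intro m m' h
      have hQ0 : 0 < Q.card := by omega
      obtain ⟨p, hp⟩ := card_pos.1 hQ0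
      have h1 := hall p hp m
      have h2 := hall p hp m'
      have h3 : (σ m).1 = (σ m').1 := h
      rw [h3] at h1
      have h4 : (σ m).2 = (σ m').2 := by rw [← h1, ← h2]
      apply e.symm.injective
      apply Subtype.ext
      have h5 : ((σ m).1.1, (σ m).1.2, (σ m).2) = ((σ m').1.1, (σ m').1.2, (σ m').2) := by rw [h3, h4]
      exact h5
    obtain ⟨p, hp, m, hm⟩ := hw2 Q hQ2 σ hσ
    exact hm (hall p hp m)

end H61LK
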